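import Mathlib
import Pool.Agent.H.MP_f02a84_al.Main

set_option autoImplicit false

universe u

namespace Pool.Agent.Results.MP_f02a84_al.NotLinear

open Pool.Agent.H.MP_f02a84_al

/-- A diagram group without a copy of F that is not linear. -/
theorem result : ∃ (A : Type) (_ : Finite A) (R : Set (List A × List A)) (w : List A),
    R.Finite ∧ (∀ p ∈ R, p.1 ≠ [] ∧ p.2 ≠ [] ∧ p.swap ∉ R) ∧ w ≠ [] ∧
    (∀ φ : ThompsonF →* DiagramGroup R w, ¬ Function.Injective φ) ∧
    ∀ (k : Type u) [Field k] (n : ℕ) (ρ : DiagramGroup R w →* GL (Fin n) k),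
      ¬ Function.Injective ρ := by
  refine ⟨Ltr, inferInstance, RR, [Ltr.a, Ltr.b], pres.1, pres.2, by simp, noF,
    fun k _ n ρ hρ => ?_⟩
  obtain ⟨g, h, t, h1, h2⟩ := elts
  exact h1 (hρ (by simpa using (lin ρ h2).eq))

end Pool.Agent.Results.MP_f02a84_al.NotLinear
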