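import Mathlib
import Pool.Agent.H.MP_f02a84_al.Main

set_option autoImplicit false

namespace Pool.Agent.Results.MP_f02a84_al.NotResFinite

open Pool.Agent.H.MP_f02a84_al

/-- A diagram group without a copy of F that is not residually finite. -/
theorem result : ∃ (A : Type) (_ : Finite A) (R : Set (List A × List A)) (w : List A),
    R.Finite ∧ (∀ p ∈ R, p.1 ≠ [] ∧ p.2 ≠ [] ∧ p.swap ∉ R) ∧ w ≠ [] ∧
    (∀ φ : ThompsonF →* DiagramGroup R w, ¬ Function.Injective φ) ∧
    ∃ g : DiagramGroup R w, g ≠ 1 ∧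
      ∀ H : Subgroup (DiagramGroup R w), H.FiniteIndex → g ∈ H := by
  refine ⟨Ltr, inferInstance, RR, [Ltr.a, Ltr.b], pres.1, pres.2, by simp, noF, ?_⟩
  obtain ⟨g, h, t, h1, h2⟩ := elts
  exact ⟨g * h * g⁻¹ * h⁻¹, fun e => h1 (commutatorElement_eq_one_iff_commute.1 e),
    fun H _ => rf h2 H⟩

end Pool.Agent.Results.MP_f02a84_al.NotResFinite
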